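import Pool.Agent.H61.SC.Stmts

/-!
# SC, CEL: cells
-/

set_option autoImplicit false

namespace Pool.SC

open Finset

namespace Cel98

/-- lengths of the intervals -/
def wid (w s i : ℕ) : ℕ := if i + 1 < w / s then s else w - (w / s - 1) * s

theorem wid_ge {w s : ℕ} (hs : 1 ≤ s) (hw : s ≤ w) (i : ℕ) : s ≤ wid w s i ∧ wid w s i < 2 * s := by
  unfold wid
  have h1 : w / s * s ≤ w := Nat.div_mul_le_self w s
  have h2 : w < (w / s + 1) * s := by
    rw [mul_comm]
    exact Nat.lt_mul_div_succ w (by omega)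
  have h3 : 1 ≤ w / s := (Nat.one_le_div_iff (by omega)).2 hw
  obtain ⟨k, hk⟩ : ∃ k, w / s = k + 1 := ⟨w / s - 1, by omega⟩
  rw [hk] at h1 h2 ⊢
  split_ifs
  · omega
  · rw [Nat.add_sub_cancel]
    have h4 : (k + 1) * s = k * s + s := by ring
    have h5 : (k + 1 + 1) * s = k * s + 2 * s := by ring
    omega

theorem sum_wid {w s : ℕ} (hs : 1 ≤ s) (hw : s ≤ w) : ∑ i ∈ range (w / s), wid w s i = w := by
  have h1 : w / s * s ≤ w := Nat.div_mul_le_self w s
  have h3 : 1 ≤ w / s := (Nat.one_le_div_iff (by omega)).2 hw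
  obtain ⟨k, hk⟩ : ∃ k, w / s = k + 1 := ⟨w / s - 1, by omega⟩
  rw [hk, Finset.sum_range_succ]
  have h4 : ∑ i ∈ range k, wid w s i = ∑ i ∈ range k, s := by
    apply Finset.sum_congr rfl
    intro i hi
    unfold wid
    rw [if_pos]
    have := Finset.mem_range.1 hi
    omega
  rw [h4, Finset.sum_const, card_range, smul_eq_mul]
  unfold wid
  rw [if_neg (by omega), hk, Nat.add_sub_cancel]
  have h5 : (k + 1) * s = k * s + s := by ring
  rw [hk] at h1
  omega

theorem end_le {w s : ℕ} (hs : 1 ≤ s) (hw : s ≤ w) {i : ℕ} (hi : i < w / s) :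
    i * s + wid w s i ≤ w := by
  have h1 : w / s * s ≤ w := Nat.div_mul_le_self w s
  unfold wid
  split_ifs with h
  · have h2 : (i + 1) * s ≤ w / s * s := Nat.mul_le_mul_right _ hi
    have h3 : (i + 1) * s = i * s + s := by ring
    omega
  · have h2 : w / s - 1 = i := by omega
    rw [h2]
    have h3 : i * s ≤ w / s * s := Nat.mul_le_mul_right _ hi.le
    omega

theorem sep {w s : ℕ} {i i' : ℕ} (hi' : i' < w / s) (h : i < i') :
    i * s + wid w s i ≤ i' * s := by
  unfold wid
  rw [if_pos (by omega)]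
  have h2 : (i + 1) * s ≤ i' * s := Nat.mul_le_mul_right _ h
  have h3 : (i + 1) * s = i * s + s := by ring
  omega

/-- the cell -/
def cell (R : Rect) (s : ℕ) (q : ℕ × ℕ) : Rect :=
  ⟨R.x + ((q.1 * s : ℕ) : ℤ), R.y + ((q.2 * s : ℕ) : ℤ), wid R.w s q.1, wid R.l s q.2⟩

theorem cell_inj (R : Rect) {s : ℕ} (hs : 1 ≤ s) : Function.Injective (cell R s) := by
  intro q q' h
  have h1 : R.x + ((q.1 * s : ℕ) : ℤ) = R.x + ((q'.1 * s : ℕ) : ℤ) := congrArg Rect.x h
  have h2 : R.y + ((q.2 * s : ℕ) : ℤ) = R.y + ((q'.2 * s : ℕ) : ℤ) := congrArg Rect.y h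
  have h3 : q.1 * s = q'.1 * s := by exact_mod_cast add_left_cancel h1
  have h4 : q.2 * s = q'.2 * s := by exact_mod_cast add_left_cancel h2
  exact Prod.ext (Nat.eq_of_mul_eq_mul_right (by omega) h3)
    (Nat.eq_of_mul_eq_mul_right (by omega) h4)

end Cel98

open Cel98 in
/-- **CEL.** -/
theorem cel_thm : S_CEL := by
  intro R s hs hw hl
  refine ⟨((range (R.w / s)) ×ˢ (range (R.l / s))).image (cell R s), ?_, ?_, ?_, ?_⟩
  · intro Q hQ
    obtain ⟨q, hq, rfl⟩ := Finset.mem_image.1 hQ
    rw [Finset.mem_product, Finset.mem_range, Finset.mem_range] at hq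
    refine ⟨?_, (wid_ge hs hw _).1, (wid_ge hs hw _).2, (wid_ge hs hl _).1, (wid_ge hs hl _).2⟩
    have h1 := end_le hs hw hq.1
    have h2 := end_le hs hl hq.2
    intro v hv
    simp only [Rect.cols, cell, Finset.mem_product, Finset.mem_Ico] at hv ⊢
    omega
  · intro Q hQ Q' hQ' hne
    obtain ⟨q, hq, rfl⟩ := Finset.mem_image.1 hQ
    obtain ⟨q', hq', rfl⟩ := Finset.mem_image.1 hQ'
    rw [Finset.mem_product, Finset.mem_range, Finset.mem_range] at hq hq'
    rw [Finset.disjoint_left]
    intro v hv hv'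
    simp only [Rect.cols, cell, Finset.mem_product, Finset.mem_Ico] at hv hv'
    apply hne
    have h1 : q.1 = q'.1 := by
      rcases lt_trichotomy q.1 q'.1 with h | h | h
      · have := sep (s := s) hq'.1 h
        omega
      · exact h
      · have := sep (s := s) hq.1 h
        omega
    have h2 : q.2 = q'.2 := by
      rcases lt_trichotomy q.2 q'.2 with h | h | h
      · have := sep (s := s) hq'.2 h
        omega
      · exact h
      · have := sep (s := s) hq.2 h
        omega
    rw [Prod.ext h1 h2]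
  · rw [Finset.sum_image (fun q _ q' _ h => cell_inj R hs h), Finset.sum_product]
    calc ∑ i ∈ range (R.w / s), ∑ j ∈ range (R.l / s), wid R.w s i * wid R.l s j
        = ∑ i ∈ range (R.w / s), wid R.w s i * R.l := by
          apply Finset.sum_congr rfl
          intro i _
          rw [← Finset.mul_sum, sum_wid hs hl]
      _ = R.w * R.l := by rw [← Finset.sum_mul, sum_wid hs hw]
  · have h1 := (Finset.card_image_le (s := (range (R.w / s)) ×ˢ (range (R.l / s))) (f := cell R s))
    rw [Finset.card_product, card_range, card_range] at h1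
    calc _ ≤ R.w / s * (R.l / s) * s ^ 2 := Nat.mul_le_mul_right _ h1
      _ = (R.w / s * s) * (R.l / s * s) := by ring
      _ ≤ R.w * R.l := Nat.mul_le_mul (Nat.div_mul_le_self _ _) (Nat.div_mul_le_self _ _)

end Pool.SC
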