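import Pool.Agent.H61.SC.Stmts

/-!
# SC, SUP: superadditivity
-/

set_option autoImplicit false

namespace Pool.SC

open Finset

namespace Sup98

theorem mem_box (R : Rect) (z1 z2 : ℤ) (v : V) :
    v ∈ box R z1 z2 ↔ (v.1, v.2.1) ∈ R.cols ∧ z1 ≤ v.2.2 ∧ v.2.2 ≤ z2 := by
  simp only [box, Rect.cols, Finset.mem_product, Finset.mem_Ico, Finset.mem_Icc]
  tauto

theorem mem_eds (R : Rect) (z1 z2 : ℤ) (e : Ed) :
    e ∈ eds R z1 z2 ↔ hd e ∈ box R z1 z2 ∧ tl e ∈ box R z1 z2 := by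
  simp only [eds, Finset.mem_filter, Finset.mem_product, Finset.mem_univ, true_and, hd]

theorem eds_mono {Q R : Rect} (h : Q.cols ⊆ R.cols) (z1 z2 : ℤ) :
    eds Q z1 z2 ⊆ eds R z1 z2 := by
  intro e he
  rw [mem_eds, mem_box, mem_box] at he ⊢
  exact ⟨⟨h he.1.1, he.1.2⟩, ⟨h he.2.1, he.2.2⟩⟩

theorem eds_disj {Q R : Rect} (h : Disjoint Q.cols R.cols) (z1 z2 : ℤ) :
    Disjoint (eds Q z1 z2) (eds R z1 z2) := by
  rw [Finset.disjoint_left] at h ⊢
  intro e he he'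
  rw [mem_eds, mem_box] at he he'
  exact h he.1.1 he'.1.1

open Classical in
theorem cuts_eq {Q R : Rect} (h : Q.cols ⊆ R.cols) (z1 z2 : ℤ) (S : Set V) :
    cuts Q z1 z2 S = (cuts R z1 z2 S).filter (fun e => e ∈ eds Q z1 z2) := by
  ext e
  simp only [cuts, Finset.mem_filter]
  constructor
  · rintro ⟨h1, h2⟩
    exact ⟨⟨eds_mono h z1 z2 h1, h2⟩, h1⟩
  · rintro ⟨⟨-, h2⟩, h1⟩
    exact ⟨h1, h2⟩

end Sup98

open Sup98 in
open Classical in
/-- **SUP.** -/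
theorem sup_thm : S_SUP := by
  intro a b R z1 z2 Rs T S ha hab hsub hdis
  have h1 : ∑ Q ∈ Rs, en a b T Q z1 z2 S =
      ∑ e ∈ Rs.biUnion (fun Q => cuts Q z1 z2 S), cap a b T e := by
    rw [Finset.sum_biUnion]
    · rfl
    · intro Q hQ Q' hQ' hne
      have h2 := eds_disj (hdis Q hQ Q' hQ' hne) z1 z2
      exact h2.mono (Finset.filter_subset _ _) (Finset.filter_subset _ _)
  have h2 : Rs.biUnion (fun Q => cuts Q z1 z2 S) ⊆ cuts R z1 z2 S := by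
    intro e he
    rw [Finset.mem_biUnion] at he
    obtain ⟨Q, hQ, he⟩ := he
    rw [cuts_eq (hsub Q hQ)] at he
    exact (Finset.mem_filter.1 he).1
  have h3 : cuts R z1 z2 S \ Rs.biUnion (fun Q => eds Q z1 z2) =
      cuts R z1 z2 S \ Rs.biUnion (fun Q => cuts Q z1 z2 S) := by
    ext e
    simp only [Finset.mem_sdiff, Finset.mem_biUnion, not_exists, not_and]
    constructor
    · rintro ⟨h4, h5⟩
      refine ⟨h4, fun Q hQ h6 => h5 Q hQ ?_⟩
      exact (Finset.mem_filter.1 h6).1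
    · rintro ⟨h4, h5⟩
      refine ⟨h4, fun Q hQ h6 => h5 Q hQ ?_⟩
      rw [cuts_eq (hsub Q hQ)]
      exact Finset.mem_filter.2 ⟨h4, h6⟩
  have h4 : a * ((cuts R z1 z2 S \ Rs.biUnion (fun Q => eds Q z1 z2)).card : ℝ) ≤
      ∑ e ∈ cuts R z1 z2 S \ Rs.biUnion (fun Q => cuts Q z1 z2 S), cap a b T e := by
    rw [h3, mul_comm, ← nsmul_eq_mul]
    apply Finset.card_nsmul_le_sum
    intro e _
    unfold cap
    split_ifs <;> linarith
  have h5 : en a b T R z1 z2 S =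
      ∑ e ∈ cuts R z1 z2 S \ Rs.biUnion (fun Q => cuts Q z1 z2 S), cap a b T e +
      ∑ e ∈ Rs.biUnion (fun Q => cuts Q z1 z2 S), cap a b T e := by
    rw [Finset.sum_sdiff h2]
    rfl
  rw [h1, h5]
  linarith

end Pool.SC
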